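import Pool.Agent.Leo3.Stmts

/-!
# Squad LEO3, module CUB: the cubic form of an ideal
-/

set_option autoImplicit false

open NumberField IsDedekindDomain WithZero Module Polynomial

namespace Pool.Agent.Leo3.H51

open Pool.Agent.Leo3

theorem cub : CubStmt := by
  intro F _ _ m s _ hs _ hm4 c hcs hcx I u v β n₀ hn₀ hβ hu hv hdet hdiv hnorm
  have hm0 : (m : F) ≠ 0 := by
    have : m ≠ 0 := by
      rintro rfl
      omega
    exact_mod_cast this
  have hs0 : s ≠ 0 := by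
    rintro rfl
    apply hm0
    have h0 : (0 : F) ^ 2 = -(m : F) := hs
    rw [zero_pow (by norm_num)] at h0
    exact neg_eq_zero.1 h0.symm
  have hb : (β : F) ≠ 0 := by
    intro h
    exact hβ (RingOfIntegers.ext h)
  have hb' : c (β : F) ≠ 0 := by
    intro h
    exact hb ((map_eq_zero c).1 h)
  have hn : (n₀ : F) ≠ 0 := by exact_mod_cast hn₀
  set B : F := ((Ideal.absNorm I : ℕ) : F) with hB
  have hB0 : B ≠ 0 := by
    intro h
    rw [h, zero_pow (by norm_num), mul_zero] at hnorm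
    exact mul_ne_zero hb hb' hnorm
  set U : F := (u : F) with hU
  set V : F := (v : F) with hV
  set U' : F := c (u : F) with hU'
  set V' : F := c (v : F) with hV'
  set b : F := (β : F) with hbdef
  set b' : F := c (β : F) with hb'def
  -- the coefficients
  have hcoef : ∀ x : 𝓞 F, x ∈ I ^ 3 → ∃ a : ℤ, (a : F) * s =
      (n₀ : F) / b * (x : F) - (n₀ : F) / b' * c (x : F) := by
    intro x hx
    obtain ⟨g, hg⟩ := hdiv x hx
    obtain ⟨a, ha⟩ := hcx g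
    refine ⟨a, ?_⟩
    have hg' : (n₀ : F) * (x : F) = b * (g : F) := by
      have := congrArg (fun z : 𝓞 F => (z : F)) hg
      simpa using this
    have e1 : (g : F) = (n₀ : F) / b * (x : F) := by
      rw [div_mul_eq_mul_div, hg', mul_div_cancel_left₀ _ hb]
    have e2 : c (g : F) = (n₀ : F) / b' * c (x : F) := by
      rw [e1, map_mul, map_div₀, map_natCast]
    rw [← ha, e2, ← e1]
  obtain ⟨a₀, h0⟩ := hcoef (u * u * u) (by
    rw [pow_three']; exact Ideal.mul_mem_mul (Ideal.mul_mem_mul hu hu) hu)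
  obtain ⟨a₁, h1⟩ := hcoef (u * u * v) (by
    rw [pow_three']; exact Ideal.mul_mem_mul (Ideal.mul_mem_mul hu hu) hv)
  obtain ⟨a₂, h2⟩ := hcoef (u * v * v) (by
    rw [pow_three']; exact Ideal.mul_mem_mul (Ideal.mul_mem_mul hu hv) hv)
  obtain ⟨a₃, h3⟩ := hcoef (v * v * v) (by
    rw [pow_three']; exact Ideal.mul_mem_mul (Ideal.mul_mem_mul hv hv) hv)
  have hc0 : ∀ x y z : 𝓞 F, ((x * y * z : 𝓞 F) : F) = (x : F) * (y : F) * (z : F) := by
    intro x y z
    simp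
  rw [hc0, map_mul, map_mul] at h0 h1 h2 h3
  set k : F := (n₀ : F) / b with hk
  set k' : F := (n₀ : F) / b' with hk'
  have hkk : k * k' * B ^ 3 = n₀ := by
    rw [hk, hk', div_mul_div_comm, hnorm]
    field_simp
  have hdet' : U * V' - V * U' = B * s := hdet
  refine ⟨a₀, a₁, a₂, a₃, ?_, ?_, ?_⟩
  · intro x y
    have e1 : c ((n₀ : F) * ((x : F) * U + (y : F) * V) ^ 3 / b) =
        (n₀ : F) * ((x : F) * U' + (y : F) * V') ^ 3 / b' := by
      rw [map_div₀, map_mul, map_pow, map_add, map_mul, map_mul, map_natCast, map_intCast,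
        map_intCast]
    rw [e1]
    have e2 : ((a₀ * x ^ 3 + 3 * a₁ * x ^ 2 * y + 3 * a₂ * x * y ^ 2 + a₃ * y ^ 3 : ℤ) : F) * s =
        (a₀ * s) * (x : F) ^ 3 + 3 * (a₁ * s) * (x : F) ^ 2 * y + 3 * (a₂ * s) * (x : F) * y ^ 2 +
          (a₃ * s) * (y : F) ^ 3 := by
      push_cast
      ring
    rw [e2, h0, h1, h2, h3]
    have e3 : (n₀ : F) * ((x : F) * U + (y : F) * V) ^ 3 / b =
        k * ((x : F) * U + (y : F) * V) ^ 3 := by rw [hk]; ring
    have e4 : (n₀ : F) * ((x : F) * U' + (y : F) * V') ^ 3 / b' =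
        k' * ((x : F) * U' + (y : F) * V') ^ 3 := by rw [hk']; ring
    rw [e3, e4]
    ring
  · have e1 : ((hP a₀ a₁ a₂ : ℤ) : F) * s ^ 2 = k * k' * (U * U') * (U * V' - V * U') ^ 2 := by
      have : ((hP a₀ a₁ a₂ : ℤ) : F) * s ^ 2 = (a₁ * s) ^ 2 - (a₀ * s) * (a₂ * s) := by
        rw [hP]
        push_cast
        ring
      rw [this, h0, h1, h2]
      ring
    rw [hdet'] at e1
    have e2 : (((hP a₀ a₁ a₂ : ℤ) : F) * B) * s ^ 2 = ((n₀ : F) * (U * U')) * s ^ 2 := by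
      calc (((hP a₀ a₁ a₂ : ℤ) : F) * B) * s ^ 2 = (((hP a₀ a₁ a₂ : ℤ) : F) * s ^ 2) * B := by ring
        _ = (k * k' * B ^ 3) * (U * U') * s ^ 2 := by rw [e1]; ring
        _ = ((n₀ : F) * (U * U')) * s ^ 2 := by rw [hkk]
    exact mul_right_cancel₀ (pow_ne_zero 2 hs0) e2
  · have e1 : (((a₁ ^ 2 - a₀ * a₂ : ℤ)) : F) * s ^ 2 = k * k' * (U * U') * (B * s) ^ 2 := by
      rw [← hdet']
      have : (((a₁ ^ 2 - a₀ * a₂ : ℤ)) : F) * s ^ 2 = (a₁ * s) ^ 2 - (a₀ * s) * (a₂ * s) := by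
        push_cast
        ring
      rw [this, h0, h1, h2]
      ring
    have e2 : (((a₂ ^ 2 - a₁ * a₃ : ℤ)) : F) * s ^ 2 = k * k' * (V * V') * (B * s) ^ 2 := by
      rw [← hdet']
      have : (((a₂ ^ 2 - a₁ * a₃ : ℤ)) : F) * s ^ 2 = (a₂ * s) ^ 2 - (a₁ * s) * (a₃ * s) := by
        push_cast
        ring
      rw [this, h1, h2, h3]
      ring
    have e3 : (((a₁ * a₂ - a₀ * a₃ : ℤ)) : F) * s ^ 2 =
        k * k' * (U * V' + V * U') * (B * s) ^ 2 := by
      rw [← hdet']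
      have : (((a₁ * a₂ - a₀ * a₃ : ℤ)) : F) * s ^ 2 =
          (a₁ * s) * (a₂ * s) - (a₀ * s) * (a₃ * s) := by
        push_cast
        ring
      rw [this, h0, h1, h2, h3]
      ring
    have e4 : ((hM a₀ a₁ a₂ a₃ : ℤ) : F) * s ^ 4 = (((n₀ ^ 2 * m : ℕ) : ℤ) : F) * s ^ 4 := by
      have h4 : ((hM a₀ a₁ a₂ a₃ : ℤ) : F) * s ^ 4 =
          4 * ((((a₁ ^ 2 - a₀ * a₂ : ℤ)) : F) * s ^ 2) * ((((a₂ ^ 2 - a₁ * a₃ : ℤ)) : F) * s ^ 2) -
            ((((a₁ * a₂ - a₀ * a₃ : ℤ)) : F) * s ^ 2) ^ 2 := by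
        rw [hM]
        push_cast
        ring
      have h5 : 4 * (U * U') * (V * V') - (U * V' + V * U') ^ 2 = -(B * s) ^ 2 := by
        rw [← hdet']
        ring
      calc ((hM a₀ a₁ a₂ a₃ : ℤ) : F) * s ^ 4
          = (k * k') ^ 2 * (B * s) ^ 4 * (4 * (U * U') * (V * V') - (U * V' + V * U') ^ 2) := by
            rw [h4, e1, e2, e3]
            ring
        _ = (k * k' * B ^ 3) ^ 2 * (-(s ^ 2)) * s ^ 4 := by
            rw [h5]
            ring
        _ = (((n₀ ^ 2 * m : ℕ) : ℤ) : F) * s ^ 4 := by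
            rw [hkk, hs]
            push_cast
            ring
    have e5 : ((hM a₀ a₁ a₂ a₃ : ℤ) : F) = (((n₀ ^ 2 * m : ℕ) : ℤ) : F) :=
      mul_right_cancel₀ (pow_ne_zero 4 hs0) e4
    have e6 : hM a₀ a₁ a₂ a₃ = ((n₀ ^ 2 * m : ℕ) : ℤ) := by exact_mod_cast e5
    rw [e6]
    push_cast
    rfl

end Pool.Agent.Leo3.H51
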