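import Pool.Agent.Leo3.Stmts

/-!
# Squad LEO3, module SQF: squarefree numbers in a residue class
-/

set_option autoImplicit false

namespace Pool.Agent.Leo3.H51

open Pool.Agent.Leo3 Finset

/-- The numbers up to `M` in the residue class. -/
def cl (M : ℕ) : Finset ℕ := (range (M + 1)).filter fun m => m % 24 = 7

theorem cl_le (M : ℕ) : (cl M).card ≤ M / 24 + 1 := by
  have h : cl M ⊆ (range (M / 24 + 1)).image fun k => 24 * k + 7 := by
    intro m hm
    rw [cl, mem_filter, mem_range] at hm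
    rw [mem_image]
    refine ⟨m / 24, ?_, ?_⟩
    · rw [mem_range]
      omega
    · show 24 * (m / 24) + 7 = m
      omega
  calc (cl M).card ≤ ((range (M / 24 + 1)).image fun k => 24 * k + 7).card := card_le_card h
    _ ≤ (range (M / 24 + 1)).card := card_image_le
    _ = M / 24 + 1 := card_range _

theorem cl_ge (M : ℕ) : (M + 17) / 24 ≤ (cl M).card := by
  have h : ((range ((M + 17) / 24)).image fun k => 24 * k + 7) ⊆ cl M := by
    intro m hm
    rw [mem_image] at hm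
    obtain ⟨k, hk, rfl⟩ := hm
    rw [mem_range] at hk
    rw [cl, mem_filter, mem_range]
    constructor <;> omega
  calc (M + 17) / 24 = (range ((M + 17) / 24)).card := (card_range _).symm
    _ = ((range ((M + 17) / 24)).image fun k => 24 * k + 7).card := by
        rw [card_image_of_injective]
        intro a b hab
        have : 24 * a + 7 = 24 * b + 7 := hab
        omega
    _ ≤ (cl M).card := card_le_card h

theorem sq_mod {p : ℕ} (h2 : p % 2 ≠ 0) (h3 : p % 3 ≠ 0) : (p ^ 2) % 24 = 1 := by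
  have h : ∀ r < 24, r % 2 ≠ 0 → r % 3 ≠ 0 → (r ^ 2) % 24 = 1 := by decide
  rw [Nat.pow_mod]
  apply h _ (Nat.mod_lt _ (by norm_num))
  · omega
  · omega

/-- The multiples of `d ^ 2` in the class. -/
def bad (N d : ℕ) : Finset ℕ := (cl (N / d ^ 2)).image fun k => d ^ 2 * k

theorem bad_card (N d : ℕ) (hd : d ≠ 0) :
    ((bad N d).card : ℝ) ≤ (N : ℝ) / 24 * (1 / (d : ℝ) ^ 2) + 1 := by
  have h1 : (bad N d).card ≤ (N / d ^ 2) / 24 + 1 := card_image_le.trans (cl_le _)
  have h2 : (((N / d ^ 2) / 24 : ℕ) : ℝ) ≤ ((N / d ^ 2 : ℕ) : ℝ) / 24 := Nat.cast_div_le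
  have h3 : ((N / d ^ 2 : ℕ) : ℝ) ≤ (N : ℝ) / ((d ^ 2 : ℕ) : ℝ) := Nat.cast_div_le
  have h4 : ((bad N d).card : ℝ) ≤ (((N / d ^ 2) / 24 : ℕ) : ℝ) + 1 := by exact_mod_cast h1
  have h5 : (N : ℝ) / ((d ^ 2 : ℕ) : ℝ) / 24 = (N : ℝ) / 24 * (1 / (d : ℝ) ^ 2) := by
    push_cast
    have : (d : ℝ) ≠ 0 := by exact_mod_cast hd
    field_simp
  have h6 : ((N / d ^ 2 : ℕ) : ℝ) / 24 ≤ (N : ℝ) / ((d ^ 2 : ℕ) : ℝ) / 24 :=
    div_le_div_of_nonneg_right h3 (by norm_num)
  linarith

theorem cover (N : ℕ) : (cl N).filter (fun m => ¬ Squarefree m) ⊆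
    (Icc 5 (Nat.sqrt N)).biUnion (bad N) := by
  intro m hm
  rw [mem_filter, cl, mem_filter, mem_range] at hm
  obtain ⟨⟨hmN, hm7⟩, hsq⟩ := hm
  rw [Nat.squarefree_iff_prime_squarefree] at hsq
  push Not at hsq
  obtain ⟨p, hp, hpm⟩ := hsq
  obtain ⟨k, hk⟩ := hpm
  have hp2 : p % 2 ≠ 0 := by
    intro h
    obtain ⟨q, hq⟩ := Nat.dvd_of_mod_eq_zero h
    have : m = 2 * (q * p * k) := by rw [hk]; nth_rewrite 1 [hq]; ring
    omega
  have hp3 : p % 3 ≠ 0 := by
    intro h
    obtain ⟨q, hq⟩ := Nat.dvd_of_mod_eq_zero h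
    have : m = 3 * (q * p * k) := by rw [hk]; nth_rewrite 1 [hq]; ring
    omega
  have hp5 : 5 ≤ p := by
    have := hp.two_le
    by_contra hlt
    have : p = 2 ∨ p = 3 ∨ p = 4 := by omega
    rcases this with rfl | rfl | rfl
    · exact hp2 rfl
    · exact hp3 rfl
    · exact hp2 rfl
  have hk0 : 0 < k := by
    rcases Nat.eq_zero_or_pos k with h | h
    · rw [h, mul_zero] at hk
      omega
    · exact h
  have hpp : p * p ≤ N := by
    have : p * p * 1 ≤ p * p * k := Nat.mul_le_mul_left _ hk0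
    omega
  rw [mem_biUnion]
  refine ⟨p, ?_, ?_⟩
  · rw [mem_Icc]
    exact ⟨hp5, Nat.le_sqrt.2 hpp⟩
  · rw [bad, mem_image]
    have hk' : p ^ 2 * k = m := by rw [hk]; ring
    refine ⟨k, ?_, hk'⟩
    rw [cl, mem_filter, mem_range]
    constructor
    · have hpos : 0 < p ^ 2 := by positivity
      have : k ≤ N / p ^ 2 := by
        rw [Nat.le_div_iff_mul_le hpos, mul_comm]
        omega
      omega
    · have h1 := sq_mod hp2 hp3
      have h2 : (p ^ 2 * k) % 24 = k % 24 := by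
        rw [Nat.mul_mod, h1, one_mul, Nat.mod_mod]
      rw [hk'] at h2
      omega

theorem sum_sq (s : ℕ) : ∑ d ∈ Icc 5 s, (1 / (d : ℝ) ^ 2) ≤ 1 / 4 := by
  have h : ∀ s : ℕ, 4 ≤ s → ∑ d ∈ Icc 5 s, (1 / (d : ℝ) ^ 2) ≤ 1 / 4 - 1 / (s : ℝ) := by
    intro s hs
    induction s, hs using Nat.le_induction with
    | base => simp
    | succ k hk ih =>
      rw [sum_Icc_succ_top (by omega)]
      have hk0 : (0 : ℝ) < k := by
        have : 0 < k := by omega
        exact_mod_cast this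
      have h1 : (1 / ((k + 1 : ℕ) : ℝ) ^ 2) ≤ 1 / (k : ℝ) - 1 / ((k + 1 : ℕ) : ℝ) := by
        push_cast
        rw [div_sub_div _ _ hk0.ne' (by positivity), div_le_div_iff₀ (by positivity)
          (by positivity)]
        nlinarith
      linarith
  rcases le_or_gt 4 s with hs | hs
  · have h1 := h s hs
    have h2 : (0 : ℝ) ≤ 1 / (s : ℝ) := by positivity
    linarith
  · rw [Icc_eq_empty (by omega), sum_empty]
    norm_num

theorem sqf : SqfStmt := by
  refine ⟨20000000, fun N hN => ?_⟩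
  classical
  have hset : {m : ℕ | m ≤ N ∧ m % 24 = 7 ∧ Squarefree m} =
      (((cl N).filter fun m => Squarefree m : Finset ℕ) : Set ℕ) := by
    ext m
    rw [Set.mem_ofPred_eq, mem_coe, mem_filter, cl, mem_filter, mem_range]
    constructor
    · rintro ⟨h1, h2, h3⟩
      exact ⟨⟨by omega, h2⟩, h3⟩
    · rintro ⟨⟨h1, h2⟩, h3⟩
      exact ⟨by omega, h2, h3⟩
  rw [hset, Set.ncard_coe_finset]
  have h1 : ((cl N).filter fun m => Squarefree m).card +
      ((cl N).filter fun m => ¬ Squarefree m).card = (cl N).card :=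
    card_filter_add_card_filter_not _
  have h2 : (((cl N).filter fun m => ¬ Squarefree m).card : ℝ) ≤
      (N : ℝ) / 24 * (1 / 4) + Nat.sqrt N := by
    calc (((cl N).filter fun m => ¬ Squarefree m).card : ℝ)
        ≤ (((Icc 5 (Nat.sqrt N)).biUnion (bad N)).card : ℝ) := by
          exact_mod_cast card_le_card (cover N)
      _ ≤ ((∑ d ∈ Icc 5 (Nat.sqrt N), (bad N d).card : ℕ) : ℝ) := by
          exact_mod_cast card_biUnion_le
      _ = ∑ d ∈ Icc 5 (Nat.sqrt N), ((bad N d).card : ℝ) := by push_cast; rfl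
      _ ≤ ∑ d ∈ Icc 5 (Nat.sqrt N), ((N : ℝ) / 24 * (1 / (d : ℝ) ^ 2) + 1) := by
          apply sum_le_sum
          intro d hd
          apply bad_card
          have := (mem_Icc.1 hd).1
          omega
      _ = (N : ℝ) / 24 * (∑ d ∈ Icc 5 (Nat.sqrt N), (1 / (d : ℝ) ^ 2)) +
          ((Icc 5 (Nat.sqrt N)).card : ℝ) := by
          rw [sum_add_distrib, ← mul_sum, sum_const, nsmul_eq_mul, mul_one]
      _ ≤ (N : ℝ) / 24 * (1 / 4) + Nat.sqrt N := by
          apply add_le_add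
          · apply mul_le_mul_of_nonneg_left (sum_sq _)
            positivity
          · rw [Nat.card_Icc]
            have : Nat.sqrt N + 1 - 5 ≤ Nat.sqrt N := by omega
            exact_mod_cast this
  have h3 : ((N : ℝ) - 6) / 24 ≤ ((cl N).card : ℝ) := by
    have e1 := cl_ge N
    have e2 : N ≤ 24 * ((N + 17) / 24) + 6 := by omega
    have e3 : (N : ℝ) ≤ 24 * (((N + 17) / 24 : ℕ) : ℝ) + 6 := by exact_mod_cast e2
    have e4 : (((N + 17) / 24 : ℕ) : ℝ) ≤ ((cl N).card : ℝ) := by exact_mod_cast e1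
    linarith
  have h4 : (((cl N).filter fun m => Squarefree m).card : ℝ) +
      (((cl N).filter fun m => ¬ Squarefree m).card : ℝ) = ((cl N).card : ℝ) := by
    exact_mod_cast h1
  -- the square root
  have h5 : (Nat.sqrt N : ℝ) ^ 2 ≤ N := by
    have := Nat.sqrt_le' N
    exact_mod_cast this
  have h6 : (20000000 : ℝ) ≤ N := by exact_mod_cast hN
  have h7 : (Nat.sqrt N : ℝ) ≤ N / 4400 := by
    by_contra hlt
    push Not at hlt
    have : ((N : ℝ) / 4400) ^ 2 < (Nat.sqrt N : ℝ) ^ 2 :=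
      pow_lt_pow_left₀ hlt (by positivity) (by norm_num)
    nlinarith
  linarith

end Pool.Agent.Leo3.H51
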